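import Pool.Agent.H902R3.XI.Stmts

/-! Task M4 of the XI-PROJECT: large values of the Gaussian Dirichlet polynomial in a positive
proportion of windows (Paley-Zygmund). -/

open Complex MeasureTheory Filter Topology Set Metric
open scoped Real ENNReal

namespace Pool.Agent.H924R3.XI

open Pool.Agent.H902R3.XI

theorem cf_nonneg (τ μ : ℝ) (n : ℕ) : 0 ≤ cf τ μ n := by
  unfold cf
  positivity

theorem continuous_DP (c : ℕ → ℝ) (K : ℕ) : Continuous (DP c K) := by
  unfold DP
  fun_prop

theorem continuous_Aw (c : ℕ → ℝ) (K : ℕ) (w : ℝ) : Continuous (Aw c K w) := by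
  unfold Aw
  refine continuous_const.mul ?_
  apply intervalIntegral.continuous_parametric_intervalIntegral_of_continuous'
  have h := continuous_DP c K
  simp only [Function.uncurry_def]
  fun_prop

theorem Aw_nonneg (c : ℕ → ℝ) (K : ℕ) {w : ℝ} (hw : 0 < w) (x : ℝ) : 0 ≤ Aw c K w x := by
  unfold Aw
  refine mul_nonneg (inv_nonneg.2 hw.le) ?_
  exact intervalIntegral.integral_nonneg hw.le fun u _ => by positivity

theorem exists_large (c : ℕ → ℝ) (K : ℕ) {w : ℝ} (hw : 0 < w) (x M : ℝ) (h : M < Aw c K w x) :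
    ∃ u ∈ Set.Icc (0 : ℝ) w, M ≤ ‖DP c K (x + u)‖ ^ 2 := by
  by_contra hcon
  push Not at hcon
  have hc := continuous_DP c K
  have h1 : (∫ u in (0 : ℝ)..w, ‖DP c K (x + u)‖ ^ 2) ≤ ∫ _u in (0 : ℝ)..w, M := by
    apply intervalIntegral.integral_mono_on hw.le
    · apply Continuous.intervalIntegrable
      fun_prop
    · simp
    · intro u hu
      exact (hcon u hu).le
  rw [intervalIntegral.integral_const, smul_eq_mul, sub_zero] at h1
  have h2 : Aw c K w x ≤ M := by
    unfold Aw
    rw [inv_mul_le_iff₀ hw]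
    exact h1
  linarith

theorem norm_term (τ μ x : ℝ) (n : ℕ) :
    ‖(cf τ μ (n + 1) : ℂ) * cexp (-I * x * ell n)‖ = cf τ μ (n + 1) := by
  rw [norm_mul, Complex.norm_real, Real.norm_of_nonneg (cf_nonneg _ _ _)]
  have : -I * x * ell n = ((-(x * ell n) : ℝ) : ℂ) * I := by
    push_cast
    ring
  rw [this, Complex.norm_exp_ofReal_mul_I, mul_one]

theorem PP_ge (τ μ x : ℝ) (K : ℕ) (hs : Summable fun n : ℕ => cf τ μ (n + 1)) :
    ‖DP (cf τ μ) K x‖ - (∑' n : ℕ, (if K ≤ n then cf τ μ (n + 1) else 0)) ≤ ‖PP τ μ x‖ := by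
  set f : ℕ → ℂ := fun n => (cf τ μ (n + 1) : ℂ) * cexp (-I * x * ell n) with hf
  have hfs : Summable f := by
    apply Summable.of_norm
    refine hs.congr fun n => ?_
    rw [hf, norm_term]
  have h1 : ∑ i ∈ Finset.range K, f i + ∑' i, f (i + K) = PP τ μ x := hfs.sum_add_tsum_nat_add K
  have h2 : ∑ i ∈ Finset.range K, f i = DP (cf τ μ) K x := by
    unfold DP
    refine Finset.sum_nbij' (fun n => n + 1) (fun n => n - 1) ?_ ?_ ?_ ?_ ?_
    · intro n hn
      rw [Finset.mem_range] at hn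
      rw [Finset.mem_Icc]
      omega
    · intro n hn
      rw [Finset.mem_Icc] at hn
      rw [Finset.mem_range]
      omega
    · intro n _
      simp
    · intro n hn
      rw [Finset.mem_Icc] at hn
      omega
    · intro n _
      simp [hf, ell]
  have h3 : ‖∑' i, f (i + K)‖ ≤ ∑' n : ℕ, (if K ≤ n then cf τ μ (n + 1) else 0) := by
    have hgs : Summable fun n : ℕ => (if K ≤ n then cf τ μ (n + 1) else 0) := by
      refine Summable.of_nonneg_of_le (fun n => ?_) (fun n => ?_) hs
      · split_ifs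
        · exact cf_nonneg _ _ _
        · exact le_rfl
      · split_ifs
        · exact le_rfl
        · exact cf_nonneg _ _ _
    have h4 := hgs.sum_add_tsum_nat_add K
    have h5 : ∑ i ∈ Finset.range K, (if K ≤ i then cf τ μ (i + 1) else 0) = 0 := by
      apply Finset.sum_eq_zero
      intro i hi
      rw [Finset.mem_range] at hi
      rw [if_neg (by omega)]
    rw [h5, zero_add] at h4
    rw [← h4]
    refine (norm_tsum_le_tsum_norm ?_).trans (le_of_eq ?_)
    · have := (summable_nat_add_iff K).2 hs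
      refine this.congr fun n => ?_
      rw [hf, norm_term]
    · refine tsum_congr fun i => ?_
      rw [if_pos (by omega), hf, norm_term]
  rw [← h1, h2]
  have h6 := norm_sub_le (DP (cf τ μ) K x + ∑' i, f (i + K)) (∑' i, f (i + K))
  rw [add_sub_cancel_right] at h6
  linarith

/-- Discrete Paley–Zygmund inequality for a continuous nonnegative function and windows. -/
theorem paley (A : ℝ → ℝ) (hA : Continuous A) (hA0 : ∀ x, 0 ≤ A x) (w x₀ : ℝ) (hw : 0 < w) (J : ℕ)
    (a b : ℝ) (ha : 0 < a) (hb : 0 < b)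
    (h1 : 2 * a * (J * w) ≤ ∫ x in x₀..(x₀ + J * w), A x)
    (h2 : ∫ x in x₀..(x₀ + J * w), A x ^ 2 ≤ b * (J * w)) :
    ∃ G : Finset ℕ, G ⊆ Finset.range J ∧ a ^ 2 / b * J ≤ (G.card : ℝ) ∧
      ∀ j ∈ G, ∃ x : ℝ, x₀ + j * w ≤ x ∧ x ≤ x₀ + (j + 1) * w ∧ a < A x := by
  classical
  set G : Finset ℕ := (Finset.range J).filter
    (fun j : ℕ => ∃ x : ℝ, x₀ + j * w ≤ x ∧ x ≤ x₀ + (j + 1) * w ∧ a < A x) with hG
  refine ⟨G, Finset.filter_subset _ _, ?_, fun j hj => (Finset.mem_filter.1 hj).2⟩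
  set lam : ℝ := a / b with hlam
  have hlampos : 0 < lam := div_pos ha hb
  set e : ℕ → ℝ := fun j => x₀ + j * w with he
  have hint : ∀ (f : ℝ → ℝ), Continuous f → ∀ j : ℕ,
      IntervalIntegrable f volume (e j) (e (j + 1)) := fun f hf j => hf.intervalIntegrable _ _
  have hsplit : ∀ (f : ℝ → ℝ), Continuous f →
      ∑ j ∈ Finset.range J, ∫ x in e j..e (j + 1), f x = ∫ x in x₀..(x₀ + J * w), f x := by
    intro f hf
    rw [intervalIntegral.sum_integral_adjacent_intervals (fun j _ => hint f hf j)]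
    simp [he]
  have hele : ∀ j : ℕ, e j ≤ e (j + 1) := by
    intro j
    simp only [he]
    push_cast
    nlinarith
  have hlen : ∀ j : ℕ, e (j + 1) - e j = w := by
    intro j
    simp only [he]
    push_cast
    ring
  have hj : ∀ j ∈ Finset.range J, ∫ x in e j..e (j + 1), A x ≤
      a * w + lam / 2 * (∫ x in e j..e (j + 1), A x ^ 2) + if j ∈ G then w / (2 * lam) else 0 := by
    intro j hjJ
    by_cases hjG : j ∈ G
    · rw [if_pos hjG]
      have h3 : ∫ x in e j..e (j + 1), A x ≤
          ∫ x in e j..e (j + 1), (lam / 2 * A x ^ 2 + 1 / (2 * lam)) := by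
        apply intervalIntegral.integral_mono_on (hele j) (hint A hA j)
        · apply hint
          fun_prop
        · intro x _
          have h4 : 0 ≤ (lam * A x - 1) ^ 2 / (2 * lam) := by positivity
          have h5 : (lam * A x - 1) ^ 2 / (2 * lam) =
              lam / 2 * A x ^ 2 + 1 / (2 * lam) - A x := by
            field_simp
            ring
          linarith
      rw [intervalIntegral.integral_add, intervalIntegral.integral_const_mul,
        intervalIntegral.integral_const, hlen, smul_eq_mul] at h3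
      · have h6 : w * (1 / (2 * lam)) = w / (2 * lam) := by ring
        have h7 : 0 < a * w := mul_pos ha hw
        linarith
      · exact (Continuous.intervalIntegrable (by fun_prop) _ _)
      · exact (Continuous.intervalIntegrable (by fun_prop) _ _)
    · rw [if_neg hjG, add_zero]
      have h3 : ∫ x in e j..e (j + 1), A x ≤ ∫ _x in e j..e (j + 1), a := by
        apply intervalIntegral.integral_mono_on (hele j) (hint A hA j)
        · simp
        · intro x hx
          by_contra hcon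
          push Not at hcon
          apply hjG
          rw [hG, Finset.mem_filter]
          refine ⟨hjJ, x, hx.1, ?_, hcon⟩
          have := hx.2
          simp only [he] at this
          push_cast at this
          exact this
      rw [intervalIntegral.integral_const, hlen, smul_eq_mul] at h3
      have h4 : 0 ≤ ∫ x in e j..e (j + 1), A x ^ 2 :=
        intervalIntegral.integral_nonneg (hele j) fun x _ => by positivity
      have h5 : 0 ≤ lam / 2 * (∫ x in e j..e (j + 1), A x ^ 2) := by positivity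
      linarith
  have hsum := Finset.sum_le_sum hj
  have hGG : (Finset.range J).filter (fun j => j ∈ G) = G := by
    ext j
    rw [Finset.mem_filter]
    constructor
    · exact fun h => h.2
    · exact fun h => ⟨(Finset.mem_filter.1 h).1, h⟩
  have hs1 : ∑ _j ∈ Finset.range J, a * w = J * (a * w) := by
    rw [Finset.sum_const, Finset.card_range, nsmul_eq_mul]
  have hs2 : ∑ j ∈ Finset.range J, lam / 2 * (∫ x in e j..e (j + 1), A x ^ 2) =
      lam / 2 * (∫ x in x₀..(x₀ + J * w), A x ^ 2) := by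
    rw [← Finset.mul_sum, hsplit (fun x => A x ^ 2) (by fun_prop)]
  have hs3 : ∑ j ∈ Finset.range J, (if j ∈ G then w / (2 * lam) else 0) =
      (G.card : ℝ) * (w / (2 * lam)) := by
    rw [← Finset.sum_filter, Finset.sum_const, nsmul_eq_mul, hGG]
  rw [hsplit A hA, Finset.sum_add_distrib, Finset.sum_add_distrib, hs1, hs2, hs3] at hsum
  have h8 : lam / 2 * (∫ x in x₀..(x₀ + J * w), A x ^ 2) ≤ lam / 2 * (b * (J * w)) :=
    mul_le_mul_of_nonneg_left h2 (by positivity)
  have h9 : lam / 2 * (b * (J * w)) = a / 2 * (J * w) := by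
    rw [hlam]
    field_simp
  have h10 : a / 2 * (J * w) ≤ (G.card : ℝ) * (w / (2 * lam)) := by
    nlinarith
  have h11 : (G.card : ℝ) * (w / (2 * lam)) = (G.card : ℝ) * (w * b / (2 * a)) := by
    rw [hlam]
    field_simp
  rw [h11] at h10
  have h12 : a ^ 2 / b * J = a / 2 * (J * w) * (2 * a / (w * b)) := by
    field_simp
  have h13 : (G.card : ℝ) = (G.card : ℝ) * (w * b / (2 * a)) * (2 * a / (w * b)) := by
    field_simp
  rw [h12, h13]
  exact mul_le_mul_of_nonneg_right h10 (by positivity)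

theorem taskM4 : TaskM1 → TaskM2 → TaskM3 → TaskM4 := by
  intro h1 h2 h3' τ hτ
  obtain ⟨C3, hC3, h3⟩ := h3'
  obtain ⟨C1, c1, hC1, hc1, hM⟩ := h1 τ hτ
  set r : ℝ := Real.sqrt (c1 / 4) with hr
  have hrpos : 0 < r := Real.sqrt_pos.2 (by positivity)
  refine ⟨(c1 / 4) ^ 2 / (C3 * C1 ^ 2), r / 2, 80, max 1 (2 * C1 / r), by positivity,
    by positivity, by norm_num, ?_⟩
  intro μ hμ w hw J hJ x₀
  have hμ1 : 1 ≤ μ := (le_max_left _ _).trans hμ
  have hμ2 : 2 * C1 / r ≤ μ := (le_max_right _ _).trans hμ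
  have hμpos : 0 < μ := by linarith
  have hwpos : 0 < w := by linarith
  obtain ⟨a1, a2, a3, a4⟩ := hM μ hμ1
  set K : ℕ := ⌈Real.exp (3 * μ)⌉₊ with hK
  have hK1 : Real.exp (3 * μ) ≤ K := Nat.le_ceil _
  have he3 : 4 ≤ Real.exp (3 * μ) := by
    have := Real.add_one_le_exp (3 * μ)
    linarith
  have hK2 : (K : ℝ) ≤ 2 * Real.exp (3 * μ) := by
    have := Nat.ceil_lt_add_one (Real.exp_pos (3 * μ)).le
    linarith
  have hKr : (4 : ℝ) ≤ K := he3.trans hK1
  have hKn : 2 ≤ K := by
    have : ((2 : ℕ) : ℝ) ≤ K := by push_cast; linarith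
    exact_mod_cast this
  have hKpos : (0 : ℝ) < K := by linarith
  -- log K ≤ w
  have he1 : (2 : ℝ) ≤ Real.exp μ := by
    have := Real.add_one_le_exp μ
    linarith
  have hK3 : (K : ℝ) ≤ Real.exp (4 * μ) := by
    have : Real.exp (4 * μ) = Real.exp μ * Real.exp (3 * μ) := by
      rw [← Real.exp_add]; ring_nf
    rw [this]
    have h0 := Real.exp_pos (3 * μ)
    nlinarith
  have hlogK : Real.log K ≤ w := by
    have : Real.log K ≤ 4 * μ := by
      rw [← Real.log_exp (4 * μ)]
      exact Real.log_le_log hKpos hK3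
    linarith
  have hK20 : (K : ℝ) ^ 20 ≤ J * w := by
    calc (K : ℝ) ^ 20 ≤ Real.exp (4 * μ) ^ 20 := pow_le_pow_left₀ hKpos.le hK3 20
      _ = Real.exp (80 * μ) := by
        rw [← Real.exp_nat_mul]
        ring_nf
      _ ≤ J * w := hJ
  have hHpos : 0 < (J : ℝ) * w := lt_of_lt_of_le (by positivity) hK20
  set H : ℝ := (J : ℝ) * w with hH
  set E : ℝ := Real.exp (2 * τ * μ ^ 2) with hE
  have hEpos : 0 < E := Real.exp_pos _
  have hc0 := cf_nonneg τ μ
  -- first moment
  have hfirst := h2 (cf τ μ) K hKn hc0 w H x₀ hwpos hHpos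
  have hS := a1 K hK1
  set S : ℝ := ∑ n ∈ Finset.Icc 1 K, cf τ μ n ^ 2 with hSdef
  have hSnn : 0 ≤ S := Finset.sum_nonneg fun n _ => by positivity
  have h8 : 8 * (K : ℝ) ^ 4 / H ≤ 1 / 2 := by
    rw [div_le_iff₀ hHpos]
    have h16 : (16 : ℝ) ≤ (K : ℝ) ^ 16 := by
      calc (16 : ℝ) ≤ 4 ^ 16 := by norm_num
        _ ≤ (K : ℝ) ^ 16 := pow_le_pow_left₀ (by norm_num) hKr 16
    have h20 : (K : ℝ) ^ 20 = (K : ℝ) ^ 16 * (K : ℝ) ^ 4 := by ring
    have h4pos : 0 < (K : ℝ) ^ 4 := by positivity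
    nlinarith
  have hm1 : c1 / 2 * E ≤ H⁻¹ * ∫ x in x₀..(x₀ + H), Aw (cf τ μ) K w x := by
    have : 8 * (K : ℝ) ^ 4 / H * S ≤ 1 / 2 * S := mul_le_mul_of_nonneg_right h8 hSnn
    linarith
  -- second moment
  have hsecond := h3 (cf τ μ) K hKn hc0 (C1 * E) (by positivity) (by
    intro b hb
    refine le_trans ?_ (a2 b hb K)
    exact Finset.sum_le_sum_of_subset_of_nonneg (Finset.filter_subset _ _)
      fun _ _ _ => by positivity) w H x₀ hlogK hK20
  have hAc := continuous_Aw (cf τ μ) K w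
  obtain ⟨G, hG1, hG2, hG3⟩ := paley (Aw (cf τ μ) K w) hAc (Aw_nonneg _ _ hwpos) w x₀ hwpos J
    (c1 / 4 * E) (C3 * (C1 * E) ^ 2) (by positivity) (by positivity) (by
      have h5 := mul_le_mul_of_nonneg_left hm1 hHpos.le
      rw [mul_inv_cancel_left₀ hHpos.ne'] at h5
      calc 2 * (c1 / 4 * E) * (↑J * w) = H * (c1 / 2 * E) := by rw [hH]; ring
        _ ≤ _ := h5) (by
      have h5 := mul_le_mul_of_nonneg_left hsecond hHpos.le
      rw [mul_inv_cancel_left₀ hHpos.ne'] at h5
      calc _ ≤ H * (C3 * (C1 * E) ^ 2) := h5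
        _ = C3 * (C1 * E) ^ 2 * (↑J * w) := by rw [hH]; ring)
  refine ⟨G, hG1, ?_, ?_⟩
  · refine le_trans (le_of_eq ?_) hG2
    congr 1
    field_simp
  · intro j hj
    obtain ⟨x, hx1, hx2, hx3⟩ := hG3 j hj
    obtain ⟨u, hu, hu2⟩ := exists_large (cf τ μ) K hwpos x _ hx3
    refine ⟨x + u, by linarith [hu.1], ?_, ?_⟩
    · have := hu.2
      nlinarith
    · have hPP := PP_ge τ μ (x + u) K a3
      have htail := a4 K hK1
      have hexp : E = Real.exp (τ * μ ^ 2) ^ 2 := by
        rw [hE, ← Real.exp_nat_mul]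
        ring_nf
      have hDP : r * Real.exp (τ * μ ^ 2) ≤ ‖DP (cf τ μ) K (x + u)‖ := by
        apply le_of_sq_le_sq _ (norm_nonneg _)
        calc (r * Real.exp (τ * μ ^ 2)) ^ 2 = c1 / 4 * E := by
              rw [mul_pow, hr, Real.sq_sqrt (by positivity), hexp]
          _ ≤ _ := hu2
      have hexpμ : C1 * Real.exp (-μ) ≤ r / 2 := by
        have h5 : Real.exp (-μ) ≤ 1 / μ := by
          rw [Real.exp_neg, ← one_div]
          apply one_div_le_one_div_of_le hμpos
          have := Real.add_one_le_exp μ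
          linarith
        have h6 : C1 * (1 / μ) ≤ r / 2 := by
          rw [mul_one_div, div_le_iff₀ hμpos]
          rw [div_le_iff₀ hrpos] at hμ2
          linarith
        exact (mul_le_mul_of_nonneg_left h5 hC1.le).trans h6
      have hE2 := Real.exp_pos (τ * μ ^ 2)
      have h7 : C1 * Real.exp (τ * μ ^ 2) * Real.exp (-μ) ≤ r / 2 * Real.exp (τ * μ ^ 2) := by
        nlinarith
      linarith

end Pool.Agent.H924R3.XI
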